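import Pool.Agent.H447.QR.Stm

/-!
# Project QR of helper447: the rank from the search for lists (helper399)
-/

set_option autoImplicit false

namespace Pool.Agent.H399.QR.FW

theorem pow2 : Primrec (fun i : ℕ => 2 ^ i) := by
  have h : Primrec (Nat.rec 1 (fun _ p => 2 * p) : ℕ → ℕ) :=
    Primrec.nat_rec₁ 1 ((Primrec.nat_mul.comp (Primrec.const 2) Primrec.snd).to₂)
  refine h.of_eq fun i => ?_
  induction i with
  | zero => rfl
  | succ i ih =>
    rw [pow_succ, ← ih, mul_comm]

variable {A : Type} [Primcodable A] {C : Type} [Primcodable C]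

/-- the test of a list and of a number -/
def qq (f : C → Bool) (v b : C × List A → Bool) (N : C → ℕ) (x : C × (List A × ℕ)) : Bool :=
  cond (f x.1)
    ((v (x.1, x.2.1) && b (x.1, x.2.1)) && (x.2.1.length + 1 == 2 ^ x.2.2 * (1 + N x.1)))
    (x.2.2 == 0)

theorem qq_comp {f : C → Bool} {v b : C × List A → Bool} {N : C → ℕ}
    (hf : Computable f) (hv : Computable v) (hb : Computable b) (hN : Primrec N) :
    Computable (qq f v b N) := by
  have h1 : Computable (fun x : C × (List A × ℕ) => f x.1) := hf.comp Computable.fst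
  have hp : Computable (fun x : C × (List A × ℕ) => (x.1, x.2.1)) :=
    Computable.fst.pair (Computable.fst.comp Computable.snd)
  have h2 : Computable (fun x : C × (List A × ℕ) => v (x.1, x.2.1)) := hv.comp hp
  have h3 : Computable (fun x : C × (List A × ℕ) => b (x.1, x.2.1)) := hb.comp hp
  have h4 : Primrec (fun x : C × (List A × ℕ) => x.2.1.length + 1) :=
    Primrec.succ.comp (Primrec.list_length.comp (Primrec.fst.comp Primrec.snd))
  have h5 : Primrec (fun x : C × (List A × ℕ) => 2 ^ x.2.2 * (1 + N x.1)) :=
    Primrec.nat_mul.comp (pow2.comp (Primrec.snd.comp Primrec.snd))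
      (Primrec.nat_add.comp (Primrec.const 1) (hN.comp Primrec.fst))
  have h6 : Computable (fun x : C × (List A × ℕ) =>
      (x.2.1.length + 1 == 2 ^ x.2.2 * (1 + N x.1))) :=
    (Primrec.beq.comp h4 h5).to_comp
  have h7 : Computable (fun x : C × (List A × ℕ) => (x.2.2 == 0)) :=
    (Primrec.beq.comp (Primrec.snd.comp Primrec.snd) (Primrec.const 0)).to_comp
  have h8 : Computable (fun x : C × (List A × ℕ) =>
      ((v (x.1, x.2.1) && b (x.1, x.2.1)) && (x.2.1.length + 1 == 2 ^ x.2.2 * (1 + N x.1)))) :=
    Primrec.and.to_comp.comp (Primrec.and.to_comp.comp h2 h3) h6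
  exact Computable.cond h1 h8 h7

theorem gen {f : C → Bool} {v b : C × List A → Bool} {N r : C → ℕ}
    (hf : Computable f) (hv : Computable v) (hb : Computable b) (hN : Primrec N)
    (h0 : ∀ c, f c = false → r c = 0)
    (hex : ∀ c, f c = true → ∃ L, v (c, L) = true ∧ b (c, L) = true)
    (hlen : ∀ c L, f c = true → v (c, L) = true → b (c, L) = true →
      L.length + 1 = 2 ^ r c * (1 + N c)) : Computable r := by
  have hq := qq_comp hf hv hb hN
  have hg : Computable₂ (fun (c : C) (n : ℕ) =>
      (Encodable.decode (α := List A × ℕ) n).bind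
        (fun w => cond (qq f v b N (c, w)) (some w.2) none)) := by
    refine Computable.option_bind (α := C × ℕ) (Computable.decode.comp Computable.snd) ?_
    refine Computable.cond (hq.comp ((Computable.fst.comp Computable.fst).pair Computable.snd))
      (Computable.option_some.comp (Computable.snd.comp Computable.snd)) (Computable.const none)
  have hR := Partrec.rfindOpt hg
  refine hR.of_eq_tot fun c => ?_
  -- soundness
  have hsound : ∀ (n a : ℕ), a ∈ (Encodable.decode (α := List A × ℕ) n).bind
        (fun w => cond (qq f v b N (c, w)) (some w.2) none) → a = r c := by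
    intro n a ha
    rw [Option.mem_def, Option.bind_eq_some_iff] at ha
    obtain ⟨⟨L, i⟩, _, hw⟩ := ha
    cases hqv : qq f v b N (c, (L, i)) with
    | false =>
      rw [hqv] at hw
      simp at hw
    | true =>
      rw [hqv] at hw
      simp only [cond_true, Option.some.injEq] at hw
      subst hw
      unfold qq at hqv
      cases hfc : f c with
      | true =>
        simp only [hfc, cond_true, Bool.and_eq_true, beq_iff_eq] at hqv
        obtain ⟨⟨h1, h2⟩, h3⟩ := hqv
        have h4 := hlen c L hfc h1 h2
        rw [h4] at h3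
        have h5 : 2 ^ r c = 2 ^ i := Nat.eq_of_mul_eq_mul_right (by omega) h3
        exact (Nat.pow_right_injective le_rfl h5).symm
      | false =>
        simp only [hfc, cond_false, beq_iff_eq] at hqv
        rw [h0 c hfc, hqv]
  -- completeness
  have hcomp : ∃ n, r c ∈ (Encodable.decode (α := List A × ℕ) n).bind
        (fun w => cond (qq f v b N (c, w)) (some w.2) none) := by
    cases hfc : f c with
    | true =>
      obtain ⟨L, h1, h2⟩ := hex c hfc
      refine ⟨Encodable.encode (L, r c), ?_⟩
      rw [Encodable.encodek, Option.bind_some]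
      have hqv : qq f v b N (c, (L, r c)) = true := by
        unfold qq
        simp only [hfc, cond_true, Bool.and_eq_true, beq_iff_eq]
        exact ⟨⟨h1, h2⟩, hlen c L hfc h1 h2⟩
      rw [hqv]
      rfl
    | false =>
      refine ⟨Encodable.encode (([] : List A), r c), ?_⟩
      rw [Encodable.encodek, Option.bind_some]
      have hqv : qq f v b N (c, (([] : List A), r c)) = true := by
        unfold qq
        simp only [hfc, cond_false, beq_iff_eq]
        exact h0 c hfc
      rw [hqv]
      rfl
  obtain ⟨n, hn⟩ := hcomp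
  have hdom := (Nat.rfindOpt_dom (f := fun n => (Encodable.decode (α := List A × ℕ) n).bind
        (fun w => cond (qq f v b N (c, w)) (some w.2) none))).2 ⟨n, r c, hn⟩
  have hmem := Part.get_mem hdom
  obtain ⟨n', hn'⟩ := Nat.rfindOpt_spec hmem
  rw [hsound n' _ hn'] at hmem
  exact hmem

open Pool.Agent.H447.QR

theorem t_FW (pg : S_PG) (pv : S_PV) : S_FW := by
  intro K P F hP hF h0 hex hlen
  have hV := pv.1.computablePred
  have hB := pv.2 K P hP
  have hN := pg.2.2.2.2
  clear pg pv
  obtain ⟨f, hf, hfe⟩ := ComputablePred.computable_iff.1 hF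
  obtain ⟨v, hv, hve⟩ := ComputablePred.computable_iff.1 hV
  obtain ⟨b, hb, hbe⟩ := ComputablePred.computable_iff.1 hB
  have ef : ∀ c, F c ↔ f c = true := fun c => by rw [hfe]
  have ev : ∀ (c : ℤ × ℤ) (L : List Ent), VL c.1 c.2 L ↔ v (c, L) = true := fun c L =>
    iff_of_eq (congrFun hve (c, L))
  have eb : ∀ (c : ℤ × ℤ) (L : List Ent), BoxC K P c.1 c.2 L ↔ b (c, L) = true := fun c L =>
    iff_of_eq (congrFun hbe (c, L))
  refine gen (A := Ent) hf hv hb hN ?_ ?_ ?_
  · intro c hc
    refine h0 c fun h => ?_
    rw [ef c, hc] at h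
    exact absurd h (by decide)
  · intro c hc
    obtain ⟨L, h1, h2⟩ := hex c ((ef c).2 hc)
    exact ⟨L, (ev c L).1 h1, (eb c L).1 h2⟩
  · intro c L hc h1 h2
    exact hlen c L ((ef c).2 hc) ((ev c L).2 h1) ((eb c L).2 h2)

end Pool.Agent.H399.QR.FW
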